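import Pool.Agent.H682R3.LC.Defs

namespace Pool.Agent.H682R3.LC

open Finset H633LC

/-! ### solutions of the path recursion -/

section sol

variable {F : Type} [Field F] {n r : ℕ} (C : LinCircuit F n r)

theorem exists_sol {R : Type} [Semiring R] (T : Finset C.V) (w : C.V → C.V → R) :
    ∃ f : C.V → Fin n → R, ∀ v j, f v j = if v ∈ T then 0 else
      (if C.label v = some j then 1 else 0) +
        ∑ u ∈ univ.filter (fun u => (u, v) ∈ C.E), w u v * f u j := by
  classical
  have main : ∀ N : ℕ, ∃ f : C.V → Fin n → R, ∀ v, C.rank v < N → ∀ j, f v j = if v ∈ T then 0 else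
      (if C.label v = some j then 1 else 0) +
        ∑ u ∈ univ.filter (fun u => (u, v) ∈ C.E), w u v * f u j := by
    intro N
    induction N with
    | zero => exact ⟨fun _ _ => 0, fun v hv => absurd hv (Nat.not_lt_zero _)⟩
    | succ N ih =>
      obtain ⟨f, hf⟩ := ih
      refine ⟨fun v j => if C.rank v < N then f v j else if v ∈ T then 0 else
        (if C.label v = some j then 1 else 0) +
        ∑ u ∈ univ.filter (fun u => (u, v) ∈ C.E), w u v * f u j, fun v hv j => ?_⟩
      have hsum : ∑ u ∈ univ.filter (fun u => (u, v) ∈ C.E), w u v *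
          (if C.rank u < N then f u j else if u ∈ T then 0 else
        (if C.label u = some j then 1 else 0) +
        ∑ u' ∈ univ.filter (fun u' => (u', u) ∈ C.E), w u' u * f u' j) =
          ∑ u ∈ univ.filter (fun u => (u, v) ∈ C.E), w u v * f u j := by
        refine sum_congr rfl fun u hu => ?_
        have h1 := C.acyclic u v (by simpa using hu)
        have h2 : C.rank u < N := by omega
        rw [if_pos h2]
      by_cases h : C.rank v < N
      · simp only [h, if_true]
        rw [hsum]
        exact hf v h j
      · simp only [h, if_false]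
        rw [hsum]
  obtain ⟨f, hf⟩ := main (univ.sup C.rank + 1)
  exact ⟨f, fun v j => hf v (Nat.lt_succ_of_le (le_sup (mem_univ v))) j⟩

theorem sol_unique {R : Type} [Semiring R] (T : Finset C.V) (w : C.V → C.V → R)
    (f g : C.V → Fin n → R)
    (hf : ∀ v j, f v j = if v ∈ T then 0 else (if C.label v = some j then 1 else 0) +
        ∑ u ∈ univ.filter (fun u => (u, v) ∈ C.E), w u v * f u j)
    (hg : ∀ v j, g v j = if v ∈ T then 0 else (if C.label v = some j then 1 else 0) +
        ∑ u ∈ univ.filter (fun u => (u, v) ∈ C.E), w u v * g u j) : f = g := by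
  classical
  have main : ∀ N : ℕ, ∀ v, C.rank v < N → f v = g v := by
    intro N
    induction N with
    | zero => intro v hv; exact absurd hv (Nat.not_lt_zero _)
    | succ N ih =>
      intro v hv
      funext j
      rw [hf, hg]
      have : ∑ u ∈ univ.filter (fun u => (u, v) ∈ C.E), w u v * f u j =
          ∑ u ∈ univ.filter (fun u => (u, v) ∈ C.E), w u v * g u j := by
        refine sum_congr rfl fun u hu => ?_
        have h1 := C.acyclic u v (by simpa using hu)
        rw [ih u (by omega)]
      rw [this]
  funext v
  exact main _ v (Nat.lt_succ_self _)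

end sol

/-! ### the determinant bound -/

theorem det_single_le {𝕜 : Type} [RCLike 𝕜] {k : ℕ} (σ : Fin k → Fin k) :
    ‖Matrix.det (fun i => (Pi.single (σ i) 1 : Fin k → 𝕜))‖ ≤ 1 := by
  classical
  by_cases h : Function.Injective σ
  · have hb : Function.Bijective σ := Finite.injective_iff_bijective.mp h
    let e : Equiv.Perm (Fin k) := Equiv.ofBijective σ hb
    have h1 : (fun i => (Pi.single (σ i) 1 : Fin k → 𝕜)) =
        (1 : Matrix (Fin k) (Fin k) 𝕜).submatrix e id := by
      funext i j
      simp only [Matrix.submatrix_apply, id, Matrix.one_apply, e,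
        Equiv.ofBijective_apply, Pi.single_apply, eq_comm]
    rw [h1, Matrix.det_permute]
    simp only [Matrix.det_one, mul_one]
    rcases Int.units_eq_one_or (Equiv.Perm.sign e) with h2 | h2 <;> simp [h2]
  · rw [Function.Injective] at h
    push Not at h
    obtain ⟨i, j, hij, hne⟩ := h
    refine (le_of_eq (norm_eq_zero.mpr (Matrix.det_zero_of_row_eq hne ?_))).trans zero_le_one
    simp [hij]

section det

variable {𝕜 : Type} [RCLike 𝕜] {V : Type} [Fintype V] [DecidableEq V] {k : ℕ}

/-- a row of the matrices of the potential argument -/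
noncomputable def row (g : V → Fin k → 𝕜) : Fin k ⊕ V → Fin k → 𝕜 :=
  Sum.elim (fun j => Pi.single j 1) g

theorem det_bound (E : Finset (V × V)) (rank : V → ℕ)
    (hac : ∀ u v, (u, v) ∈ E → rank u < rank v) (wt : V → V → 𝕜) (g : V → Fin k → 𝕜)
    (α : V → ℝ) (hα : ∀ v, 0 ≤ α v)
    (hg : ∀ v, (∃ j, g v = Pi.single j 1 ∧ 1 ≤ α v) ∨
      (g v = ∑ u ∈ univ.filter (fun u => (u, v) ∈ E), wt u v • g u ∧
        ∀ u, (u, v) ∈ E → ‖wt u v‖ * α u ≤ α v)) :
    ∀ N : ℕ, ∀ S : Finset V, S.card = N → (∀ v ∈ S, ∀ u, (u, v) ∈ E → u ∈ S) →
      ∀ ρ : Fin k → Fin k ⊕ V, (∀ i v, ρ i = Sum.inr v → v ∈ S) →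
      ‖Matrix.det (fun i => row g (ρ i))‖ ≤
        (∏ i, Sum.elim (fun _ => (1 : ℝ)) α (ρ i)) *
          ∏ v ∈ S, (max 1 ((univ.filter (fun u => (u, v) ∈ E)).card : ℝ)) := by
  classical
  intro N
  induction N with
  | zero =>
    intro S hS hcl ρ hρ
    rw [card_eq_zero] at hS
    subst hS
    have h1 : ∀ i, ∃ j, ρ i = Sum.inl j := by
      intro i
      rcases h : ρ i with j | v
      · exact ⟨j, rfl⟩
      · exact absurd (hρ i v h) (by simp)
    choose σ hσ using h1
    have h2 : (fun i => row g (ρ i)) =
        fun i => (Pi.single (σ i) 1 : Fin k → 𝕜) := by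
      funext i
      simp [row, hσ]
    rw [h2]
    simpa [hσ] using det_single_le (𝕜 := 𝕜) σ
  | succ N ih =>
    intro S hS hcl ρ hρ
    have hne : S.Nonempty := by
      rw [← card_pos]; omega
    obtain ⟨v0, hv0, hmax⟩ := S.exists_max_image rank hne
    have hS' : (S.erase v0).card = N := by rw [card_erase_of_mem hv0]; omega
    have hcl' : ∀ v ∈ S.erase v0, ∀ u, (u, v) ∈ E → u ∈ S.erase v0 := by
      intro v hv u hu
      rw [mem_erase] at hv ⊢
      refine ⟨?_, hcl v hv.2 u hu⟩
      rintro rfl
      have := hac _ _ hu
      have := hmax v hv.2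
      omega
    have ih' := ih (S.erase v0) hS' hcl'
    set D : V → ℝ := fun v => max 1 ((univ.filter (fun u => (u, v) ∈ E)).card : ℝ) with hD
    have hD1 : ∀ v, 1 ≤ D v := fun v => le_max_left _ _
    have hDprod : 0 ≤ ∏ v ∈ S.erase v0, D v := prod_nonneg fun v _ => le_trans zero_le_one (hD1 v)
    have hSprod : ∏ v ∈ S, D v = D v0 * ∏ v ∈ S.erase v0, D v := (mul_prod_erase S D hv0).symm
    have ha0 : ∀ x : Fin k ⊕ V, 0 ≤ Sum.elim (fun _ => (1 : ℝ)) α x := by
      intro x; rcases x with j | v
      · simp
      · exact hα v
    have haprod : ∀ (ρ' : Fin k → Fin k ⊕ V) (s : Finset (Fin k)),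
        0 ≤ ∏ i ∈ s, Sum.elim (fun _ => (1 : ℝ)) α (ρ' i) := fun ρ' s => prod_nonneg fun i _ => ha0 _
    by_cases hA : ∃ i0, ρ i0 = Sum.inr v0
    · obtain ⟨i0, hi0⟩ := hA
      by_cases hB : ∃ i1, i1 ≠ i0 ∧ ρ i1 = Sum.inr v0
      · obtain ⟨i1, hne1, hi1⟩ := hB
        refine (le_of_eq (norm_eq_zero.mpr (Matrix.det_zero_of_row_eq hne1 ?_))).trans
          (mul_nonneg (haprod _ _) (prod_nonneg fun v _ => le_trans zero_le_one (hD1 v)))
        simp [hi0, hi1]
      · push Not at hB
        have hsplit : ∀ x : Fin k ⊕ V,
            ∏ i, Sum.elim (fun _ => (1 : ℝ)) α (Function.update ρ i0 x i) =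
            Sum.elim (fun _ => (1 : ℝ)) α x *
              ∏ i ∈ univ.erase i0, Sum.elim (fun _ => (1 : ℝ)) α (ρ i) := by
          intro x
          rw [← mul_prod_erase univ _ (mem_univ i0)]
          simp only [Function.update_self]
          congr 1
          refine prod_congr rfl fun i hi => ?_
          rw [Function.update_of_ne (ne_of_mem_erase hi)]
        have hsplit0 : ∏ i, Sum.elim (fun _ => (1 : ℝ)) α (ρ i) =
            α v0 * ∏ i ∈ univ.erase i0, Sum.elim (fun _ => (1 : ℝ)) α (ρ i) := by
          rw [← mul_prod_erase univ _ (mem_univ i0), hi0]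
          rfl
        have hupd : ∀ x : Fin k ⊕ V, (fun i => row g (Function.update ρ i0 x i)) =
            Function.update (fun i => row g (ρ i)) i0 (row g x) := by
          intro x
          funext i
          by_cases h : i = i0
          · subst h; simp
          · rw [Function.update_of_ne h, Function.update_of_ne h]
        have hin : ∀ x : Fin k ⊕ V, (∀ v, x = Sum.inr v → v ∈ S.erase v0) →
            ∀ i v, Function.update ρ i0 x i = Sum.inr v → v ∈ S.erase v0 := by
          intro x hx i v hv
          by_cases h : i = i0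
          · subst h
            rw [Function.update_self] at hv
            exact hx v hv
          · rw [Function.update_of_ne h] at hv
            rw [mem_erase]
            refine ⟨?_, hρ i v hv⟩
            rintro rfl
            exact hB i h hv
        set P : ℝ := ∏ i ∈ univ.erase i0, Sum.elim (fun _ => (1 : ℝ)) α (ρ i) with hP
        have hP0 : 0 ≤ P := haprod _ _
        rcases hg v0 with ⟨j, hj, hj1⟩ | ⟨hsum, hw⟩
        · have h1 := ih' (Function.update ρ i0 (Sum.inl j)) (hin _ (by simp))
          have h2 : (fun i => row g (Function.update ρ i0 (Sum.inl j) i)) =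
              fun i => row g (ρ i) := by
            rw [hupd]
            funext i
            by_cases h : i = i0
            · subst h; simp [hi0, row, hj]
            · rw [Function.update_of_ne h]
          rw [h2, hsplit] at h1
          rw [hsplit0, hSprod]
          refine h1.trans ?_
          simp only [Sum.elim_inl, one_mul]
          calc P * ∏ v ∈ S.erase v0, D v
              = 1 * P * (1 * ∏ v ∈ S.erase v0, D v) := by ring
            _ ≤ α v0 * P * (D v0 * ∏ v ∈ S.erase v0, D v) := by
                gcongr
                exact hD1 v0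
        · have h1 : Matrix.det (fun i => row g (ρ i)) =
              ∑ u ∈ univ.filter (fun u => (u, v0) ∈ E), wt u v0 *
                Matrix.det (fun i => row g (Function.update ρ i0 (Sum.inr u) i)) := by
            have h2 : (fun i => row g (ρ i)) =
                Function.update (fun i => row g (ρ i)) i0
                  (∑ u ∈ univ.filter (fun u => (u, v0) ∈ E), wt u v0 • g u) := by
              funext i
              by_cases h : i = i0
              · subst h
                rw [Function.update_self]
                simp only [hi0, row, Sum.elim_inr]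
                exact hsum
              · rw [Function.update_of_ne h]
            have h3 := (Matrix.detRowAlternating (n := Fin k) (R := 𝕜)).toMultilinearMap.map_update_sum
              (univ.filter (fun u => (u, v0) ∈ E)) i0 (fun u => wt u v0 • g u)
              (fun i => row g (ρ i))
            rw [h2]
            refine h3.trans (sum_congr rfl fun u _ => ?_)
            rw [MultilinearMap.map_update_smul, smul_eq_mul]
            congr 1
            rw [hupd]
            rfl
          rw [h1, hsplit0, hSprod]
          have h4 : ∀ u ∈ univ.filter (fun u => (u, v0) ∈ E),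
              ‖wt u v0 * Matrix.det (fun i => row g (Function.update ρ i0 (Sum.inr u) i))‖
                ≤ α v0 * P * ∏ v ∈ S.erase v0, D v := by
            intro u hu
            have huE : (u, v0) ∈ E := by simpa using hu
            have hu1 : u ∈ S.erase v0 := by
              rw [mem_erase]
              refine ⟨?_, hcl v0 hv0 u huE⟩
              rintro rfl
              have := hac _ _ huE
              omega
            have h5 := ih' (Function.update ρ i0 (Sum.inr u)) (hin _ (by
              intro v hv
              rw [← Sum.inr.inj hv]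
              exact hu1))
            rw [hsplit, Sum.elim_inr] at h5
            rw [norm_mul]
            calc ‖wt u v0‖ * ‖Matrix.det (fun i =>
                    row g (Function.update ρ i0 (Sum.inr u) i))‖
                ≤ ‖wt u v0‖ * (α u * P * ∏ v ∈ S.erase v0, D v) := by gcongr
              _ = (‖wt u v0‖ * α u) * P * ∏ v ∈ S.erase v0, D v := by ring
              _ ≤ α v0 * P * ∏ v ∈ S.erase v0, D v := by
                  gcongr
                  exact hw u huE
          refine (norm_sum_le _ _).trans ((sum_le_sum h4).trans ?_)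
          rw [sum_const, nsmul_eq_mul]
          have h6 : ((univ.filter (fun u => (u, v0) ∈ E)).card : ℝ) ≤ D v0 := le_max_right _ _
          calc ((univ.filter (fun u => (u, v0) ∈ E)).card : ℝ) *
                (α v0 * P * ∏ v ∈ S.erase v0, D v)
              ≤ D v0 * (α v0 * P * ∏ v ∈ S.erase v0, D v) := by
                gcongr
                exact mul_nonneg (mul_nonneg (hα v0) hP0) hDprod
            _ = α v0 * P * (D v0 * ∏ v ∈ S.erase v0, D v) := by ring
    · push Not at hA
      have h1 := ih' ρ (by
        intro i v hv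
        rw [mem_erase]
        refine ⟨?_, hρ i v hv⟩
        rintro rfl
        exact hA i hv)
      refine h1.trans ?_
      rw [hSprod]
      have h2 := haprod ρ univ
      calc (∏ i, Sum.elim (fun _ => (1 : ℝ)) α (ρ i)) * ∏ v ∈ S.erase v0, D v
          = (∏ i, Sum.elim (fun _ => (1 : ℝ)) α (ρ i)) * (1 * ∏ v ∈ S.erase v0, D v) := by ring
        _ ≤ (∏ i, Sum.elim (fun _ => (1 : ℝ)) α (ρ i)) * (D v0 * ∏ v ∈ S.erase v0, D v) := by
            gcongr
            exact hD1 v0

theorem prod_indeg_le (E : Finset (V × V)) :
    ∏ v, (max 1 ((univ.filter (fun u => (u, v) ∈ E)).card : ℝ)) ≤ 2 ^ E.card := by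
  classical
  have h1 : ∑ v : V, (univ.filter (fun u => (u, v) ∈ E)).card = E.card := by
    rw [card_eq_sum_card_fiberwise (f := Prod.snd) (t := univ) (fun _ _ => mem_univ _)]
    refine sum_congr rfl fun v _ => ?_
    refine card_bij (fun u _ => (u, v)) ?_ ?_ ?_
    · intro u hu; simpa using hu
    · intro a _ b _ h; exact (Prod.mk.inj h).1
    · rintro ⟨a, b⟩ hb
      simp only [mem_filter] at hb
      obtain ⟨hb1, rfl⟩ := hb
      exact ⟨a, by simpa using hb1, rfl⟩
  rw [← h1, ← prod_pow_eq_pow_sum]
  refine prod_le_prod (fun v _ => le_trans zero_le_one (le_max_left _ _)) fun v _ => ?_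
  refine max_le (one_le_pow₀ (by norm_num)) ?_
  exact_mod_cast (Nat.lt_two_pow_self).le

end det

end Pool.Agent.H682R3.LC
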