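import Pool.Agent.H633R2.LC.Defs

/-!
# Total absolute path weights of linear circuits; the Sylvester matrices
-/

namespace Pool.Agent.H682R3.LC

open Finset H633LC

/-- `W v j` is the total absolute weight of the directed paths from the sources carrying `x_j` to
the node `v` all of whose nodes are outside `T` (the absolute weight of a path is the product of
the absolute values of its scalars; a path may consist of one node).  Since the graph is acyclic
these equations have exactly one solution. -/
def IsAbsWeight {𝕜 : Type} [RCLike 𝕜] {n r : ℕ} (C : LinCircuit 𝕜 n r) (T : Finset C.V)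
    (W : C.V → Fin n → ℝ) : Prop :=
  ∀ v j, W v j = if v ∈ T then 0 else (if C.label v = some j then 1 else 0) +
    ∑ u ∈ univ.filter (fun u => (u, v) ∈ C.E), ‖C.wt u v‖ * W u j

/-- The entry `(i, j)` of the Sylvester matrix of order `2 ^ k`: the product of the signs `-1` over
the common binary digits one of `i` and `j` (among the last `k` digits). -/
def had : ℕ → ℕ → ℕ → ℤ
  | 0, _, _ => 1
  | k + 1, i, j => had k (i / 2) (j / 2) * (if i % 2 = 1 ∧ j % 2 = 1 then -1 else 1)

/-- The `n × n` matrix: the Sylvester matrix of order `m = 2 ^ (log₂ n)` (so `n / 2 < m ≤ n`) in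
the upper left corner, ones on the rest of the diagonal, zeros elsewhere. -/
def hadMat (𝕜 : Type) [RCLike 𝕜] (n : ℕ) : Fin n → Fin n → 𝕜 := fun i j =>
  if (i : ℕ) < 2 ^ Nat.log 2 n ∧ (j : ℕ) < 2 ^ Nat.log 2 n then ((had (Nat.log 2 n) i j : ℤ) : 𝕜)
  else if i = j then 1 else 0

end Pool.Agent.H682R3.LC
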