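import Mathlib

/-! # Cauchy-Binet over `ℝ`, `ℂ` and a large minor of a finite rank perturbation of a unitary matrix

The proof of `cb_aux` and `cauchyBinet` follows `Pool.Agent.FinVol.Lib`. -/

namespace Pool.Agent.H682R3.LC

open Finset Matrix

variable {𝕜 : Type} [RCLike 𝕜]

theorem cb_aux {m : ℕ} {ι : Type} [Fintype ι] [DecidableEq ι] (P : Matrix (Fin m) ι 𝕜)
    (Q : Matrix ι (Fin m) 𝕜) :
    (P * Q).det = ∑ a : Fin m → ι, (P.submatrix id a).det * ∏ i, Q (a i) i := by
  rw [det_apply']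
  have h1 : ∀ σ : Equiv.Perm (Fin m), ∏ i, (P * Q) (σ i) i =
      ∑ a : Fin m → ι, (∏ i, P (σ i) (a i)) * ∏ i, Q (a i) i := by
    intro σ
    simp only [Matrix.mul_apply]
    rw [Finset.prod_univ_sum, Fintype.piFinset_univ]
    apply Finset.sum_congr rfl
    intro a _
    rw [Finset.prod_mul_distrib]
  simp only [h1, Finset.mul_sum]
  rw [Finset.sum_comm]
  apply Finset.sum_congr rfl
  intro a _
  rw [det_apply', Finset.sum_mul]
  apply Finset.sum_congr rfl
  intro σ _
  simp only [Matrix.submatrix_apply, id]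
  ring

theorem cauchyBinet {m : ℕ} {ι : Type} [Fintype ι] [DecidableEq ι] (P : Matrix (Fin m) ι 𝕜)
    (Q : Matrix ι (Fin m) 𝕜) :
    (P * Q).det = (m.factorial : 𝕜)⁻¹ * ∑ a : Fin m → ι, (P.submatrix id a).det * (Q.submatrix a id).det := by
  have h1 : ∀ τ : Equiv.Perm (Fin m), (P * Q).det =
      ∑ a : Fin m → ι, (P.submatrix id a).det * (((Equiv.Perm.sign τ : ℤ) : 𝕜) * ∏ i, Q (a (τ i)) i) := by
    intro τ
    rw [cb_aux, ← Equiv.sum_comp (Equiv.arrowCongr τ.symm (Equiv.refl ι))]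
    apply Finset.sum_congr rfl
    intro a _
    have e : (Equiv.arrowCongr τ.symm (Equiv.refl ι)) a = a ∘ τ := by
      ext i
      simp [Equiv.arrowCongr]
    rw [e]
    have e2 : P.submatrix id (a ∘ τ) = (P.submatrix id a).submatrix id τ := rfl
    rw [e2, Matrix.det_permute']
    simp only [Function.comp_apply]
    ring
  have h2 : (m.factorial : 𝕜) * (P * Q).det =
      ∑ a : Fin m → ι, (P.submatrix id a).det * (Q.submatrix a id).det := by
    have h3 : ∑ τ : Equiv.Perm (Fin m), (P * Q).det = (m.factorial : 𝕜) * (P * Q).det := by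
      rw [Finset.sum_const, Finset.card_univ, Fintype.card_perm, Fintype.card_fin, nsmul_eq_mul]
    rw [← h3, Finset.sum_congr rfl (fun τ _ => h1 τ), Finset.sum_comm]
    apply Finset.sum_congr rfl
    intro a _
    rw [← Finset.mul_sum, det_apply' (Q.submatrix a id)]
    rfl
  rw [← h2, inv_mul_cancel_left₀]
  exact_mod_cast Nat.factorial_ne_zero m

/-- Gram determinant. -/
theorem det_gram {k : ℕ} {ι : Type} [Fintype ι] [DecidableEq ι] (R : Matrix ι (Fin k) 𝕜) :
    (Rᴴ * R).det = (((k.factorial : ℝ)⁻¹ * ∑ c : Fin k → ι, ‖(R.submatrix c id).det‖ ^ 2 : ℝ) : 𝕜) := by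
  rw [cauchyBinet]
  push_cast
  congr 1
  refine Finset.sum_congr rfl (fun c _ => ?_)
  have e : Rᴴ.submatrix id c = (R.submatrix c id)ᴴ := by
    ext i j; simp [Matrix.conjTranspose_apply]
  rw [e, Matrix.det_conjTranspose]
  exact RCLike.conj_mul _

/-- A matrix differing from a scaled unitary matrix by a matrix of rank at most `t` has a large
minor of order `m - t`. -/
theorem minor_lower {m t k : ℕ} (hk : k + t = m) (x : ℝ) (hx : 0 < x)
    (H M : Matrix (Fin m) (Fin m) 𝕜)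
    (hH : Hᴴ * H = (x : 𝕜) • (1 : Matrix (Fin m) (Fin m) 𝕜)) (S : Submodule 𝕜 (Fin m → 𝕜))
    (hS : Module.finrank 𝕜 S ≤ t) (hR : ∀ i, (fun j => H i j - M i j) ∈ S) :
    ∃ a b : Fin k → Fin m, Function.Injective a ∧ Function.Injective b ∧
      x ^ k ≤ 4 ^ m * ‖(M.submatrix a b).det‖ ^ 2 := by
  classical
  -- the common kernel
  let E := EuclideanSpace 𝕜 (Fin m)
  set R : Matrix (Fin m) (Fin m) 𝕜 := H - M with hRdef
  let L : E →ₗ[𝕜] (Fin m → 𝕜) := (Matrix.mulVecLin R).comp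
    ((WithLp.linearEquiv 2 𝕜 (Fin m → 𝕜)).toLinearMap)
  have hrank : R.rank ≤ t := by
    rw [Matrix.rank_eq_finrank_span_row]
    refine le_trans (Submodule.finrank_mono ?_) hS
    rw [Submodule.span_le]
    rintro _ ⟨i, rfl⟩
    exact hR i
  have hker : k ≤ Module.finrank 𝕜 (LinearMap.ker L) := by
    have h1 := LinearMap.finrank_range_add_finrank_ker L
    have h2 : Module.finrank 𝕜 (LinearMap.range L) ≤ t := by
      refine le_trans ?_ hrank
      unfold Matrix.rank
      refine Submodule.finrank_mono ?_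
      exact LinearMap.range_comp_le_range _ _
    have h3 : Module.finrank 𝕜 E = m := by simp [E]
    omega
  let bas := stdOrthonormalBasis 𝕜 (LinearMap.ker L)
  let Q : Matrix (Fin m) (Fin k) 𝕜 := Matrix.of fun i l =>
    ((bas (Fin.castLE hker l) : LinearMap.ker L) : E) i
  have hRQ : R * Q = 0 := by
    ext i l
    have h1 : L ((bas (Fin.castLE hker l) : LinearMap.ker L) : E) = 0 :=
      (bas (Fin.castLE hker l)).2
    have h2 : (R.mulVec (((bas (Fin.castLE hker l) : LinearMap.ker L) : E).ofLp)) i = 0 :=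
      congrFun h1 i
    rw [Matrix.mul_apply]
    exact h2
  have hQQ : Qᴴ * Q = 1 := by
    ext l l'
    have h1 := bas.orthonormal
    rw [orthonormal_iff_ite] at h1
    have h2 := h1 (Fin.castLE hker l) (Fin.castLE hker l')
    rw [Submodule.coe_inner, PiLp.inner_apply] at h2
    rw [Matrix.mul_apply, Matrix.one_apply]
    simp only [Matrix.conjTranspose_apply, Q, Matrix.of_apply]
    have h3 : (Fin.castLE hker l = Fin.castLE hker l') ↔ l = l' := by
      simp [Fin.ext_iff]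
    rw [← if_congr h3 rfl rfl, ← h2]
    refine sum_congr rfl fun i _ => ?_
    simp [RCLike.inner_apply, mul_comm]
  have hMQ : M * Q = H * Q := by
    have : M = H - R := by rw [hRdef]; abel
    rw [this, Matrix.sub_mul, hRQ, sub_zero]
  have hdet : ((M * Q)ᴴ * (M * Q)).det = (x : 𝕜) ^ k := by
    rw [hMQ, Matrix.conjTranspose_mul, Matrix.mul_assoc, ← Matrix.mul_assoc Hᴴ, hH,
      Matrix.smul_mul, Matrix.one_mul, Matrix.mul_smul, hQQ, Matrix.det_smul, Matrix.det_one,
      Fintype.card_fin, mul_one]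
  have hfac : (0 : ℝ) < (k.factorial : ℝ) := by exact_mod_cast Nat.factorial_pos k
  have e1 : x ^ k = (k.factorial : ℝ)⁻¹ *
      ∑ a : Fin k → Fin m, ‖((M * Q).submatrix a id).det‖ ^ 2 := by
    have h := hdet
    rw [det_gram] at h
    exact_mod_cast h.symm
  have e2 : (1 : ℝ) = (k.factorial : ℝ)⁻¹ * ∑ b : Fin k → Fin m, ‖(Q.submatrix b id).det‖ ^ 2 := by
    have h : (Qᴴ * Q).det = 1 := by rw [hQQ, Matrix.det_one]
    rw [det_gram] at h
    exact_mod_cast h.symm
  have e2' : ∑ b : Fin k → Fin m, ‖(Q.submatrix b id).det‖ ^ 2 = (k.factorial : ℝ) := by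
    field_simp at e2
    linarith
  have e3 : ∀ a : Fin k → Fin m, ‖((M * Q).submatrix a id).det‖ ^ 2 ≤
      (k.factorial : ℝ)⁻¹ * ∑ b : Fin k → Fin m, ‖(M.submatrix a b).det‖ ^ 2 := by
    intro a
    have h1 : (M * Q).submatrix a id = (M.submatrix a id) * Q := rfl
    rw [h1, cauchyBinet, norm_mul, mul_pow]
    have h2 : ‖∑ b : Fin k → Fin m, ((M.submatrix a id).submatrix id b).det *
        (Q.submatrix b id).det‖ ^ 2 ≤
        (∑ b : Fin k → Fin m, ‖(M.submatrix a b).det‖ ^ 2) *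
          ∑ b : Fin k → Fin m, ‖(Q.submatrix b id).det‖ ^ 2 := by
      refine le_trans ?_ (Finset.sum_mul_sq_le_sq_mul_sq univ _ _)
      refine pow_le_pow_left₀ (norm_nonneg _) ?_ 2
      refine (norm_sum_le _ _).trans (le_of_eq ?_)
      refine sum_congr rfl fun b _ => ?_
      rw [norm_mul]
      rfl
    rw [e2'] at h2
    have h3 : ‖((k.factorial : 𝕜))⁻¹‖ ^ 2 = (k.factorial : ℝ)⁻¹ * (k.factorial : ℝ)⁻¹ := by
      rw [norm_inv, RCLike.norm_natCast]; ring
    rw [h3]
    calc (k.factorial : ℝ)⁻¹ * (k.factorial : ℝ)⁻¹ * ‖∑ b : Fin k → Fin m,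
          ((M.submatrix a id).submatrix id b).det * (Q.submatrix b id).det‖ ^ 2
        ≤ (k.factorial : ℝ)⁻¹ * (k.factorial : ℝ)⁻¹ *
          ((∑ b : Fin k → Fin m, ‖(M.submatrix a b).det‖ ^ 2) * (k.factorial : ℝ)) := by gcongr
      _ = (k.factorial : ℝ)⁻¹ * ∑ b : Fin k → Fin m, ‖(M.submatrix a b).det‖ ^ 2 := by
          field_simp
  have e4 : x ^ k ≤ (k.factorial : ℝ)⁻¹ * ((k.factorial : ℝ)⁻¹ *
      ∑ a : Fin k → Fin m, ∑ b : Fin k → Fin m, ‖(M.submatrix a b).det‖ ^ 2) := by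
    rw [e1]
    have : ∑ a : Fin k → Fin m, ‖((M * Q).submatrix a id).det‖ ^ 2 ≤ (k.factorial : ℝ)⁻¹ *
      ∑ a : Fin k → Fin m, ∑ b : Fin k → Fin m, ‖(M.submatrix a b).det‖ ^ 2 := by
      rw [mul_sum]
      exact sum_le_sum fun a _ => e3 a
    gcongr
  by_contra hcon
  push Not at hcon
  -- the number of injections
  set J : Finset (Fin k → Fin m) := univ.filter Function.Injective with hJ
  have hJcard : (J.card : ℝ) = (k.factorial : ℝ) * (m.choose k : ℝ) := by
    have h1 : J.card = m.descFactorial k := by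
      rw [hJ, ← Fintype.card_subtype,
        Fintype.card_congr (Equiv.subtypeInjectiveEquivEmbedding (Fin k) (Fin m)),
        Fintype.card_embedding_eq, Fintype.card_fin, Fintype.card_fin]
    rw [h1, Nat.descFactorial_eq_factorial_mul_choose]
    push_cast
    ring
  have hzero : ∀ a b : Fin k → Fin m, ¬ (Function.Injective a ∧ Function.Injective b) →
      ‖(M.submatrix a b).det‖ ^ 2 = 0 := by
    intro a b hab
    have : (M.submatrix a b).det = 0 := by
      by_cases ha : Function.Injective a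
      · have hb : ¬ Function.Injective b := fun h => hab ⟨ha, h⟩
        rw [Function.Injective] at hb
        push Not at hb
        obtain ⟨i, j, hij, hne⟩ := hb
        refine Matrix.det_zero_of_column_eq hne fun l => ?_
        simp [hij]
      · rw [Function.Injective] at ha
        push Not at ha
        obtain ⟨i, j, hij, hne⟩ := ha
        refine Matrix.det_zero_of_row_eq hne ?_
        ext l
        simp [hij]
    simp [this]
  have hJne : J.Nonempty := by
    refine ⟨Fin.castLE (by omega), ?_⟩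
    rw [hJ, mem_filter]
    exact ⟨mem_univ _, Fin.castLE_injective _⟩
  have e5 : ∑ a : Fin k → Fin m, ∑ b : Fin k → Fin m, ‖(M.submatrix a b).det‖ ^ 2 =
      ∑ a ∈ J, ∑ b ∈ J, ‖(M.submatrix a b).det‖ ^ 2 := by
    symm
    rw [hJ]
    rw [sum_filter]
    refine sum_congr rfl fun a _ => ?_
    by_cases ha : Function.Injective a
    · rw [if_pos ha, sum_filter]
      refine sum_congr rfl fun b _ => ?_
      by_cases hb : Function.Injective b
      · rw [if_pos hb]
      · rw [if_neg hb, hzero a b (fun h => hb h.2)]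
    · rw [if_neg ha]
      symm
      exact sum_eq_zero fun b _ => hzero a b (fun h => ha h.1)
  have e6 : ∑ a ∈ J, ∑ b ∈ J, ‖(M.submatrix a b).det‖ ^ 2 <
      ∑ a ∈ J, ∑ b ∈ J, x ^ k / 4 ^ m := by
    refine sum_lt_sum_of_nonempty hJne fun a ha => ?_
    refine sum_lt_sum_of_nonempty hJne fun b hb => ?_
    have h1 := hcon a b (by simpa [hJ] using ha) (by simpa [hJ] using hb)
    rw [lt_div_iff₀ (by positivity)]
    linarith
  rw [e5] at e4
  have e7 : ∑ a ∈ J, ∑ b ∈ J, x ^ k / 4 ^ m =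
      (k.factorial : ℝ) ^ 2 * ((m.choose k : ℝ) ^ 2 * (x ^ k / 4 ^ m)) := by
    rw [sum_const, sum_const, nsmul_eq_mul, nsmul_eq_mul, hJcard]
    ring
  rw [e7] at e6
  have e8 : (m.choose k : ℝ) ^ 2 ≤ 4 ^ m := by
    have h1 : (m.choose k : ℝ) ≤ 2 ^ m := by exact_mod_cast Nat.choose_le_two_pow m k
    calc (m.choose k : ℝ) ^ 2 ≤ (2 ^ m) ^ 2 := by gcongr
      _ = 4 ^ m := by rw [← pow_mul, mul_comm m 2, pow_mul]; norm_num
  have e9 : (m.choose k : ℝ) ^ 2 * (x ^ k / 4 ^ m) ≤ x ^ k := by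
    calc (m.choose k : ℝ) ^ 2 * (x ^ k / 4 ^ m) ≤ 4 ^ m * (x ^ k / 4 ^ m) := by gcongr
      _ = x ^ k := by field_simp
  have e10 : (k.factorial : ℝ)⁻¹ * ((k.factorial : ℝ)⁻¹ *
      ∑ a ∈ J, ∑ b ∈ J, ‖(M.submatrix a b).det‖ ^ 2) < x ^ k := by
    calc (k.factorial : ℝ)⁻¹ * ((k.factorial : ℝ)⁻¹ *
      ∑ a ∈ J, ∑ b ∈ J, ‖(M.submatrix a b).det‖ ^ 2)
        < (k.factorial : ℝ)⁻¹ * ((k.factorial : ℝ)⁻¹ *
          ((k.factorial : ℝ) ^ 2 * ((m.choose k : ℝ) ^ 2 * (x ^ k / 4 ^ m)))) := by gcongr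
      _ = (m.choose k : ℝ) ^ 2 * (x ^ k / 4 ^ m) := by field_simp
      _ ≤ x ^ k := e9
  linarith

end Pool.Agent.H682R3.LC
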