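import Pool.Agent.H682R3.LC.Core
import Pool.Agent.H682R3.LC.Minor

namespace Pool.Agent.H682R3.LC

open Finset H633LC

/-! ### the Sylvester matrices -/

theorem sum_range_two_mul (f : ℕ → ℤ) (N : ℕ) :
    ∑ j ∈ range (2 * N), f j = ∑ j ∈ range N, (f (2 * j) + f (2 * j + 1)) := by
  induction N with
  | zero => simp
  | succ N ih =>
    rw [sum_range_succ _ N, ← ih, Nat.mul_succ, sum_range_succ, sum_range_succ]
    ring

theorem had_symm (k : ℕ) : ∀ i j, had k i j = had k j i := by
  induction k with
  | zero => intro i j; rfl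
  | succ k ih =>
    intro i j
    simp only [had]
    rw [ih]
    congr 1
    simp only [and_comm]

theorem had_orth (k : ℕ) : ∀ i i' : ℕ, i < 2 ^ k → i' < 2 ^ k →
    ∑ j ∈ range (2 ^ k), had k i j * had k i' j = if i = i' then 2 ^ k else 0 := by
  induction k with
  | zero =>
    intro i i' hi hi'
    have h1 : i = 0 := by simpa using hi
    have h2 : i' = 0 := by simpa using hi'
    subst h1 h2
    simp [had]
  | succ k ih =>
    intro i i' hi hi'
    have hp : 2 ^ (k + 1) = 2 * 2 ^ k := by ring
    rw [hp] at hi hi'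
    rw [pow_succ' 2 k, sum_range_two_mul]
    have h1 : ∀ j, had (k + 1) i (2 * j) * had (k + 1) i' (2 * j) +
        had (k + 1) i (2 * j + 1) * had (k + 1) i' (2 * j + 1) =
        (had k (i / 2) j * had k (i' / 2) j) *
          (1 + (if i % 2 = 1 then -1 else 1) * (if i' % 2 = 1 then -1 else 1)) := by
      intro j
      have e1 : (2 * j) / 2 = j := by omega
      have e2 : (2 * j) % 2 = 0 := by omega
      have e3 : (2 * j + 1) / 2 = j := by omega
      have e4 : (2 * j + 1) % 2 = 1 := by omega
      simp only [had, e1, e2, e3, e4, and_true, zero_ne_one, and_false, if_false]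
      ring
    rw [sum_congr rfl fun j _ => h1 j, ← sum_mul, ih (i / 2) (i' / 2) (by omega) (by omega)]
    by_cases h : i = i'
    · subst h
      simp only [if_true]
      rcases Nat.mod_two_eq_zero_or_one i with h2 | h2
      · simp [h2]; ring
      · simp [h2]; ring
    · rw [if_neg h]
      by_cases h3 : i / 2 = i' / 2
      · rw [if_pos h3]
        rcases Nat.mod_two_eq_zero_or_one i with h4 | h4 <;>
          rcases Nat.mod_two_eq_zero_or_one i' with h5 | h5
        · omega
        · simp [h4, h5]
        · simp [h4, h5]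
        · omega
      · rw [if_neg h3]; simp

/-! ### the two bounds -/

section main

variable {𝕜 : Type} [RCLike 𝕜] {n r : ℕ}

theorem absWeight_nonneg (C : LinCircuit 𝕜 n r) (T : Finset C.V) (W : C.V → Fin n → ℝ)
    (hW : IsAbsWeight C T W) : ∀ v j, 0 ≤ W v j := by
  have main : ∀ N : ℕ, ∀ v, C.rank v < N → ∀ j, 0 ≤ W v j := by
    intro N
    induction N with
    | zero => intro v hv; exact absurd hv (Nat.not_lt_zero _)
    | succ N ih =>
      intro v hv j
      rw [hW v j]
      split_ifs
      · exact le_rfl
      all_goals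
        first
        | refine add_nonneg zero_le_one (sum_nonneg fun u hu => mul_nonneg (norm_nonneg _) ?_)
        | refine add_nonneg le_rfl (sum_nonneg fun u hu => mul_nonneg (norm_nonneg _) ?_)
        have h1 := C.acyclic u v (by simpa using hu)
        exact ih u (by omega) j
  exact fun v j => main _ v (Nat.lt_succ_self _) j

/-- Bound for a minor of the matrix of the `T`-avoiding forms. -/
theorem minor_upper (C : LinCircuit 𝕜 n r) (T : Finset C.V) (W : C.V → Fin n → ℝ)
    (hW : IsAbsWeight C T W) (g : C.V → Fin n → 𝕜)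
    (hg : ∀ v j, g v j = if v ∈ T then 0 else (if C.label v = some j then 1 else 0) +
        ∑ u ∈ univ.filter (fun u => (u, v) ∈ C.E), C.wt u v * g u j)
    {k : ℕ} (a : Fin k → Fin r) (b : Fin k → Fin n) (hb : Function.Injective b) (B : Fin k → ℝ)
    (hB : ∀ i l, W (C.out (a i)) (b l) ≤ B i) :
    ‖Matrix.det (fun i l => g (C.out (a i)) (b l) : Matrix (Fin k) (Fin k) 𝕜)‖ ≤
      (∏ i, B i) * 2 ^ C.E.card := by
  classical
  have hW0 := absWeight_nonneg C T W hW
  have key := det_bound (𝕜 := 𝕜) (k := k) C.E C.rank C.acyclic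
    (fun u v => if v ∈ T then 0 else C.wt u v) (fun v l => g v (b l))
    (fun v => ‖fun l => W v (b l)‖) (fun v => norm_nonneg _) (by
      intro v
      by_cases hT : v ∈ T
      · right
        refine ⟨?_, ?_⟩
        · funext l
          rw [hg, if_pos hT]
          simp [hT]
        · intro u _
          simp [hT]
      · rcases hl : C.label v with _ | j0
        · right
          refine ⟨?_, ?_⟩
          · funext l
            rw [hg, if_neg hT, hl]
            simp [hT]
          · intro u hu
            simp only [hT, if_false]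
            rw [← norm_norm (C.wt u v), ← norm_smul]
            rw [pi_norm_le_iff_of_nonneg (norm_nonneg _)]
            intro l
            refine le_trans ?_ (norm_le_pi_norm (fun l => W v (b l)) l)
            simp only [Pi.smul_apply, smul_eq_mul, Real.norm_eq_abs]
            rw [abs_of_nonneg (mul_nonneg (norm_nonneg _) (hW0 _ _)), abs_of_nonneg (hW0 _ _)]
            rw [hW v (b l), if_neg hT, hl]
            have h1 : ‖C.wt u v‖ * W u (b l) ≤
                ∑ u ∈ univ.filter (fun u => (u, v) ∈ C.E), ‖C.wt u v‖ * W u (b l) :=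
              single_le_sum (f := fun u => ‖C.wt u v‖ * W u (b l))
                (fun u _ => mul_nonneg (norm_nonneg _) (hW0 _ _)) (by simpa using hu)
            simpa using h1
        · have hempty : univ.filter (fun u => (u, v) ∈ C.E) = ∅ := by
            rw [filter_eq_empty_iff]
            intro u _ hu
            have := C.source u v hu
            rw [hl] at this
            exact absurd this (by simp)
          by_cases hl2 : ∃ l, b l = j0
          · obtain ⟨l0, hl0⟩ := hl2
            left
            refine ⟨l0, ?_, ?_⟩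
            · funext l
              rw [hg, if_neg hT, hl, hempty, sum_empty, add_zero, Pi.single_apply]
              congr 1
              rw [← hl0]
              simp only [Option.some.injEq, eq_iff_iff]
              exact ⟨fun h => (hb h).symm, fun h => by rw [h]⟩
            · refine le_trans ?_ (norm_le_pi_norm (fun l => W v (b l)) l0)
              rw [hW v (b l0), if_neg hT, hl, hempty, sum_empty, add_zero, hl0]
              simp
          · right
            push Not at hl2
            refine ⟨?_, ?_⟩
            · funext l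
              rw [hg, if_neg hT, hl, hempty, sum_empty, add_zero]
              have h1 : ¬ (some j0 = some (b l)) := fun h => hl2 l (Option.some.inj h).symm
              rw [if_neg h1]
              simp
            · intro u hu
              have h1 : u ∈ univ.filter (fun u => (u, v) ∈ C.E) := by simpa using hu
              rw [hempty] at h1
              exact absurd h1 (by simp))
    _ univ rfl (fun _ _ _ _ => mem_univ _) (fun i => Sum.inr (C.out (a i)))
    (fun _ _ _ => mem_univ _)
  refine (le_of_eq ?_).trans (key.trans ?_)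
  · rfl
  · have h1 : (∏ i, Sum.elim (fun _ => (1 : ℝ)) (fun v => ‖fun l => W v (b l)‖)
        ((fun i => Sum.inr (C.out (a i))) i : Fin k ⊕ C.V)) ≤ ∏ i, B i := by
      refine prod_le_prod (fun i _ => norm_nonneg _) fun i _ => ?_
      simp only [Sum.elim_inr]
      have hBi : 0 ≤ B i := (hW0 _ (b i)).trans (hB i i)
      rw [pi_norm_le_iff_of_nonneg hBi]
      intro l
      rw [Real.norm_eq_abs, abs_of_nonneg (hW0 _ _)]
      exact hB i l
    have h2 := prod_indeg_le C.E
    have h3 : 0 ≤ ∏ i, B i := prod_nonneg fun i _ => (hW0 _ (b i)).trans (hB i i)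
    have h4 : 0 ≤ ∏ v : C.V, (max 1 ((univ.filter (fun u => (u, v) ∈ C.E)).card : ℝ)) :=
      prod_nonneg fun v _ => le_trans zero_le_one (le_max_left _ _)
    exact mul_le_mul h1 h2 h4 h3

/-- Morgenstern's bound with total path weights in place of bounded scalars. -/
theorem det_le (C : LinCircuit 𝕜 n n) (A : Fin n → Fin n → 𝕜) (hA : C.Computes A)
    (W : C.V → Fin n → ℝ) (hW : IsAbsWeight C ∅ W) (B : Fin n → ℝ)
    (hB : ∀ i j, W (C.out i) j ≤ B i) : ‖Matrix.det (A : Matrix (Fin n) (Fin n) 𝕜)‖ ≤
      (∏ i, B i) * 2 ^ C.E.card := by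
  classical
  have hform : ∀ v j, C.form v j = if v ∈ (∅ : Finset C.V) then 0 else
      (if C.label v = some j then 1 else 0) +
        ∑ u ∈ univ.filter (fun u => (u, v) ∈ C.E), C.wt u v * C.form u j := by
    intro v j
    rw [if_neg (by simp)]
    rcases hl : C.label v with _ | j0
    · rw [C.form_gate v hl j]
      simp
    · have hempty : univ.filter (fun u => (u, v) ∈ C.E) = ∅ := by
        rw [filter_eq_empty_iff]
        intro u _ hu
        have := C.source u v hu
        rw [hl] at this
        exact absurd this (by simp)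
      rw [C.form_source v j0 hl, hempty, sum_empty, add_zero, Pi.single_apply]
      congr 1
      simp only [Option.some.injEq, eq_iff_iff]
      exact eq_comm
  have h := minor_upper C ∅ W hW C.form hform id id Function.injective_id B (fun i l => hB i l)
  have h2 : (fun i l => C.form (C.out (id i)) (id l) : Matrix (Fin n) (Fin n) 𝕜) = A := by
    funext i l
    exact hA i l
  rw [h2] at h
  exact h

/-- the bound for matrices with a scaled unitary block, with exceptional nodes -/
theorem unitary_bound (C : LinCircuit 𝕜 n r) (A : Fin r → Fin n → 𝕜) (hC : C.Computes A)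
    {m : ℕ} (ρ : Fin m → Fin r) (γ : Fin m → Fin n) (hγ : Function.Injective γ) (x : ℝ)
    (hx : 0 < x)
    (hU : ∀ j j', ∑ i, star (A (ρ i) (γ j)) * A (ρ i) (γ j') = if j = j' then (x : 𝕜) else 0)
    (T : Finset C.V) (hT : T.card ≤ m)
    (W : C.V → Fin n → ℝ) (hW : IsAbsWeight C T W) (B : ℝ) (hB : 0 < B)
    (hWB : ∀ i j, W (C.out (ρ i)) (γ j) ≤ B) :
    ((m : ℝ) - T.card) * Real.logb 2 (√x / B) ≤ C.E.card + m := by
  classical
  obtain ⟨g, hg⟩ := exists_sol C T C.wt
  let H : Matrix (Fin m) (Fin m) 𝕜 := fun i j => A (ρ i) (γ j)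
  let M : Matrix (Fin m) (Fin m) 𝕜 := fun i j => g (C.out (ρ i)) (γ j)
  have hH : H.conjTranspose * H = (x : 𝕜) • (1 : Matrix (Fin m) (Fin m) 𝕜) := by
    ext i j
    rw [Matrix.mul_apply, Matrix.smul_apply, Matrix.one_apply]
    refine (hU i j).trans ?_
    by_cases h : i = j <;> simp [h]
  let S : Submodule 𝕜 (Fin m → 𝕜) :=
    Submodule.span 𝕜 ((T.image fun t => fun j => C.form t (γ j) : Finset (Fin m → 𝕜)) : Set _)
  have hS : Module.finrank 𝕜 S ≤ T.card :=
    (finrank_span_finset_le_card _).trans card_image_le
  have hdiff : ∀ v, (fun j => C.form v (γ j) - g v (γ j)) ∈ S := by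
    have main : ∀ N : ℕ, ∀ v, C.rank v < N → (fun j => C.form v (γ j) - g v (γ j)) ∈ S := by
      intro N
      induction N with
      | zero => intro v hv; exact absurd hv (Nat.not_lt_zero _)
      | succ N ih =>
        intro v hv
        by_cases hvT : v ∈ T
        · have h1 : (fun j => C.form v (γ j) - g v (γ j)) = fun j => C.form v (γ j) := by
            funext j
            rw [hg, if_pos hvT, sub_zero]
          rw [h1]
          refine Submodule.subset_span ?_
          rw [mem_coe, mem_image]
          exact ⟨v, hvT, rfl⟩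
        · rcases hl : C.label v with _ | j0
          · have h1 : (fun j => C.form v (γ j) - g v (γ j)) =
                ∑ u ∈ univ.filter (fun u => (u, v) ∈ C.E),
                  C.wt u v • (fun j => C.form u (γ j) - g u (γ j)) := by
              funext j
              rw [hg, if_neg hvT, hl, C.form_gate v hl, Finset.sum_apply]
              simp only [reduceCtorEq, if_false, zero_add, Pi.smul_apply, smul_eq_mul]
              rw [← sum_sub_distrib]
              refine sum_congr rfl fun u _ => ?_
              ring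
            rw [h1]
            refine Submodule.sum_mem _ fun u hu => Submodule.smul_mem _ _ (ih u ?_)
            have h2 := C.acyclic u v (by simpa using hu)
            omega
          · have hempty : univ.filter (fun u => (u, v) ∈ C.E) = ∅ := by
              rw [filter_eq_empty_iff]
              intro u _ hu
              have := C.source u v hu
              rw [hl] at this
              exact absurd this (by simp)
            have h1 : (fun j => C.form v (γ j) - g v (γ j)) = 0 := by
              funext j
              rw [hg, if_neg hvT, hl, hempty, sum_empty, add_zero, C.form_source v j0 hl,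
                Pi.single_apply]
              simp only [Option.some.injEq, Pi.zero_apply, eq_comm (a := γ j)]
              simp
            rw [h1]
            exact Submodule.zero_mem _
    exact fun v => main _ v (Nat.lt_succ_self _)
  have hR : ∀ i, (fun j => H i j - M i j) ∈ S := by
    intro i
    have h1 := hdiff (C.out (ρ i))
    have h2 : (fun j => H i j - M i j) =
        fun j => C.form (C.out (ρ i)) (γ j) - g (C.out (ρ i)) (γ j) := by
      funext j
      rw [hC (ρ i) (γ j)]
    rw [h2]
    exact h1
  have hkt : (m - T.card) + T.card = m := Nat.sub_add_cancel hT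
  obtain ⟨a, b, ha, hb, hab⟩ := minor_lower hkt x hx H M hH S hS hR
  have hup := minor_upper C T W hW g hg (fun i => ρ (a i)) (fun l => γ (b l))
    (fun x y h => hb (hγ h)) (fun _ => B) (fun i l => hWB _ _)
  have hup2 : ‖(M.submatrix a b).det‖ ≤ B ^ (m - T.card) * 2 ^ C.E.card := by
    refine (le_of_eq ?_).trans (hup.trans (le_of_eq ?_))
    · rfl
    · rw [prod_const, card_univ, Fintype.card_fin]
  set K := m - T.card with hK
  have hKr : ((m : ℝ) - T.card) = (K : ℝ) := by
    rw [hK, Nat.cast_sub hT]
  rw [hKr]
  have h5 : x ^ K ≤ 4 ^ m * (B ^ K * 2 ^ C.E.card) ^ 2 := by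
    refine hab.trans ?_
    gcongr
  have h6 := Real.logb_le_logb_of_le (b := 2) (by norm_num) (pow_pos hx K) h5
  rw [Real.logb_pow, Real.logb_mul (by positivity) (by positivity), Real.logb_pow, Real.logb_pow,
    Real.logb_mul (by positivity) (by positivity), Real.logb_pow, Real.logb_pow] at h6
  have h4 : Real.logb 2 (4 : ℝ) = 2 := by
    rw [show (4 : ℝ) = 2 ^ (2 : ℕ) by norm_num, Real.logb_pow]
    simp
  rw [h4, Real.logb_self_eq_one (by norm_num)] at h6
  have h7 : Real.logb 2 (√x / B) = Real.logb 2 x / 2 - Real.logb 2 B := by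
    rw [Real.logb_div (Real.sqrt_pos.mpr hx).ne' hB.ne', Real.sqrt_eq_rpow,
      Real.logb_rpow_eq_mul_logb_of_pos hx]
    ring
  rw [h7]
  push_cast at h6 ⊢
  nlinarith [h6]

/-- the bound for the Sylvester matrices with exceptional nodes -/
theorem sylvester_bound (n : ℕ) (C : LinCircuit 𝕜 n n) (hn : 1 ≤ n)
    (hC : C.Computes (hadMat 𝕜 n)) (T : Finset C.V) (hT : T.card ≤ 2 ^ Nat.log 2 n)
    (W : C.V → Fin n → ℝ) (hW : IsAbsWeight C T W) (B : ℝ) (hB : 0 < B)
    (hWB : ∀ i j : Fin n, (i : ℕ) < 2 ^ Nat.log 2 n → (j : ℕ) < 2 ^ Nat.log 2 n →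
      W (C.out i) j ≤ B) :
    ((2 : ℝ) ^ Nat.log 2 n - T.card) * Real.logb 2 (√(2 ^ Nat.log 2 n) / B) ≤
      C.E.card + 2 ^ Nat.log 2 n := by
  classical
  set k := Nat.log 2 n with hk
  have hmn : 2 ^ k ≤ n := Nat.pow_log_le_self 2 (by omega)
  let γ : Fin (2 ^ k) → Fin n := Fin.castLE hmn
  have hγ : Function.Injective γ := Fin.castLE_injective _
  have hentry : ∀ i j : Fin (2 ^ k), hadMat 𝕜 n (γ i) (γ j) = ((had k i j : ℤ) : 𝕜) := by
    intro i j
    have h3 : ((γ i : Fin n) : ℕ) < 2 ^ Nat.log 2 n ∧ ((γ j : Fin n) : ℕ) < 2 ^ Nat.log 2 n :=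
      ⟨i.2, j.2⟩
    simp only [hadMat, if_pos h3]
    rfl
  have h := unitary_bound C _ hC γ γ hγ (2 ^ k) (by positivity) (by
    intro i j
    simp only [hentry]
    have h1 : ∑ l : Fin (2 ^ k), had k i l * had k j l = if (i : ℕ) = j then 2 ^ k else 0 := by
      rw [← had_orth k i j i.2 j.2, Finset.sum_range]
    have h2 : ∑ l : Fin (2 ^ k), star ((had k l i : ℤ) : 𝕜) * ((had k l j : ℤ) : 𝕜) =
        ((∑ l : Fin (2 ^ k), had k i l * had k j l : ℤ) : 𝕜) := by
      push_cast
      refine sum_congr rfl fun l _ => ?_
      rw [had_symm k l i, had_symm k l j]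
      simp
    rw [h2, h1]
    by_cases h : i = j
    · subst h
      rw [if_pos rfl, if_pos rfl]
      push_cast
      norm_num
    · have : ¬ ((i : ℕ) = j) := fun h' => h (Fin.ext h')
      simp [h, this]) T hT W hW B hB (fun i j => hWB _ _ i.2 j.2)
  push_cast at h
  exact h

/-- weights avoiding a larger set are smaller -/
theorem absWeight_anti (C : LinCircuit 𝕜 n r) (T T' : Finset C.V) (hTT : T ⊆ T')
    (W W' : C.V → Fin n → ℝ) (hW : IsAbsWeight C T W) (hW' : IsAbsWeight C T' W') :
    ∀ v j, W' v j ≤ W v j := by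
  have h0 := absWeight_nonneg C T W hW
  have main : ∀ N : ℕ, ∀ v, C.rank v < N → ∀ j, W' v j ≤ W v j := by
    intro N
    induction N with
    | zero => intro v hv; exact absurd hv (Nat.not_lt_zero _)
    | succ N ih =>
      intro v hv j
      by_cases h : v ∈ T'
      · rw [hW' v j, if_pos h]
        exact h0 v j
      · have h2 : v ∉ T := fun h' => h (hTT h')
        rw [hW' v j, hW v j, if_neg h, if_neg h2]
        gcongr with u hu
        have h1 := C.acyclic u v (by simpa using hu)
        exact ih u (by omega) j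
  exact fun v j => main _ v (Nat.lt_succ_self _) j

/-- Few outputs with small total absolute weights. -/
theorem good_outputs (n : ℕ) (C : LinCircuit 𝕜 n n) (hn : 1 ≤ n)
    (hC : C.Computes (hadMat 𝕜 n)) (W : C.V → Fin n → ℝ) (hW : IsAbsWeight C ∅ W) (B : ℝ)
    (hB : 0 < B) (hB2 : B ≤ √(2 ^ Nat.log 2 n)) (G : Finset (Fin n))
    (hG : ∀ i ∈ G, (i : ℕ) < 2 ^ Nat.log 2 n ∧
      ∀ j : Fin n, (j : ℕ) < 2 ^ Nat.log 2 n → W (C.out i) j ≤ B) :
    (G.card : ℝ) * Real.logb 2 (√(2 ^ Nat.log 2 n) / B) ≤ C.E.card + 2 ^ Nat.log 2 n := by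
  classical
  set k := Nat.log 2 n with hk
  have hmn : 2 ^ k ≤ n := Nat.pow_log_le_self 2 (by omega)
  set Z : Finset (Fin n) := (univ.filter fun i : Fin n => (i : ℕ) < 2 ^ k) with hZ
  have hZcard : Z.card = 2 ^ k := by
    rw [hZ]
    have h1 : (univ.filter fun i : Fin n => (i : ℕ) < 2 ^ k) =
        (univ : Finset (Fin (2 ^ k))).map (Fin.castLEEmb hmn) := by
      ext i
      simp only [mem_filter, mem_univ, true_and, mem_map, Fin.castLEEmb_apply]
      constructor
      · intro h; exact ⟨⟨i, h⟩, Fin.ext rfl⟩
      · rintro ⟨a, rfl⟩; exact a.2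
    rw [h1, card_map, card_univ, Fintype.card_fin]
  have hGZ : G ⊆ Z := by
    intro i hi
    rw [hZ, mem_filter]
    exact ⟨mem_univ _, (hG i hi).1⟩
  set T : Finset C.V := (Z \ G).image C.out with hT
  have hTcard : T.card ≤ 2 ^ k - G.card := by
    refine card_image_le.trans ?_
    rw [card_sdiff_of_subset hGZ, hZcard]
  obtain ⟨W', hW'⟩ := exists_sol C T (fun u v => ‖C.wt u v‖)
  have hW'' : IsAbsWeight C T W' := hW'
  have hanti := absWeight_anti C ∅ T (empty_subset _) W W' hW hW''
  have hmain := sylvester_bound n C hn hC T (hTcard.trans (Nat.sub_le _ _)) W' hW'' B hB (by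
    intro i j hi hj
    by_cases h : i ∈ G
    · exact (hanti _ _).trans ((hG i h).2 j hj)
    · have h1 : C.out i ∈ T := by
        rw [hT, mem_image]
        refine ⟨i, ?_, rfl⟩
        rw [mem_sdiff, hZ, mem_filter]
        exact ⟨⟨mem_univ _, hi⟩, h⟩
      rw [hW'' (C.out i) j, if_pos h1]
      exact hB.le)
  have hGcard : G.card ≤ 2 ^ k := hZcard ▸ card_le_card hGZ
  have h1 : (G.card : ℝ) ≤ (2 : ℝ) ^ k - T.card := by
    have h2 : T.card + G.card ≤ 2 ^ k := by omega
    have h3 : ((T.card + G.card : ℕ) : ℝ) ≤ ((2 ^ k : ℕ) : ℝ) := by exact_mod_cast h2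
    push_cast at h3
    linarith
  have h4 : 0 ≤ Real.logb 2 (√(2 ^ k) / B) := by
    refine Real.logb_nonneg (by norm_num) ?_
    rw [le_div_iff₀ hB, one_mul]
    exact hB2
  exact (mul_le_mul_of_nonneg_right h1 h4).trans hmain

end main

end Pool.Agent.H682R3.LC
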