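import Pool.Agent.H682R3.LC.Main

namespace Pool.Agent.H682R3.LC

open Finset H633LC

theorem exists_unique_absWeight {𝕜 : Type} [RCLike 𝕜] {n r : ℕ} (C : LinCircuit 𝕜 n r)
    (T : Finset C.V) : ∃! W : C.V → Fin n → ℝ, IsAbsWeight C T W := by
  obtain ⟨W, hW⟩ := exists_sol C T (fun u v => ‖C.wt u v‖)
  exact ⟨W, hW, fun W' hW' => sol_unique C T (fun u v => ‖C.wt u v‖) W' W hW' hW⟩

theorem superlinear {𝕜 : Type} [RCLike 𝕜] (n : ℕ) (hn : 1 ≤ n) (C : LinCircuit 𝕜 n n)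
    (hC : C.Computes (hadMat 𝕜 n)) (T : Finset C.V) (W : C.V → Fin n → ℝ)
    (hW : IsAbsWeight C T W) (ε δ : ℝ) (hε : 0 ≤ ε) (hδ : 0 ≤ δ)
    (hT : (T.card : ℝ) ≤ (1 - δ) * 2 ^ Nat.log 2 n)
    (hB : ∀ i j : Fin n, (i : ℕ) < 2 ^ Nat.log 2 n → (j : ℕ) < 2 ^ Nat.log 2 n →
      W (C.out i) j ≤ ((2 : ℝ) ^ Nat.log 2 n) ^ (1 / 2 - ε)) :
    (n / 2 : ℝ) * (δ * ε * (Real.logb 2 n - 1) - 1) ≤ C.E.card := by
  set k := Nat.log 2 n with hk
  have hm : (0 : ℝ) < 2 ^ k := by positivity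
  have hT1 : (T.card : ℝ) ≤ 2 ^ k := by nlinarith [mul_nonneg hδ hm.le]
  have hT2 : T.card ≤ 2 ^ k := by exact_mod_cast hT1
  have h := sylvester_bound n C hn hC T hT2 W hW _ (Real.rpow_pos_of_pos hm (1 / 2 - ε)) hB
  rw [← hk] at h
  have h1 : Real.logb 2 (√(2 ^ k) / ((2 : ℝ) ^ k) ^ (1 / 2 - ε)) = ε * k := by
    rw [Real.sqrt_eq_rpow, ← Real.rpow_sub hm, Real.logb_rpow_eq_mul_logb_of_pos hm, Real.logb_pow,
      Real.logb_self_eq_one (by norm_num)]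
    ring
  rw [h1] at h
  have hk0 : (0 : ℝ) ≤ (k : ℝ) := Nat.cast_nonneg _
  have h2 : δ * 2 ^ k * (ε * k) ≤ ((2 : ℝ) ^ k - T.card) * (ε * k) := by
    refine mul_le_mul_of_nonneg_right ?_ (mul_nonneg hε hk0)
    linarith
  have h3 : (2 : ℝ) ^ k * (δ * ε * k - 1) ≤ C.E.card := by
    have : (2 : ℝ) ^ k * (δ * ε * k - 1) = δ * 2 ^ k * (ε * k) - 2 ^ k := by ring
    linarith
  have hn0 : (0 : ℝ) < n := by exact_mod_cast hn
  have h4 : (n : ℝ) ≤ 2 * 2 ^ k := by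
    have h5 : n < 2 ^ (k + 1) := Nat.lt_pow_succ_log_self (by norm_num) n
    have h6 : (n : ℝ) < ((2 ^ (k + 1) : ℕ) : ℝ) := by exact_mod_cast h5
    push_cast at h6
    rw [pow_succ] at h6
    linarith
  have h5 : Real.logb 2 n - 1 ≤ k := by
    have h6 : Real.logb 2 n ≤ Real.logb 2 (2 * 2 ^ k) :=
      Real.logb_le_logb_of_le (by norm_num) hn0 h4
    rw [Real.logb_mul (by norm_num) (by positivity), Real.logb_pow,
      Real.logb_self_eq_one (by norm_num)] at h6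
    linarith
  have hδε : 0 ≤ δ * ε := mul_nonneg hδ hε
  have h6 : δ * ε * (Real.logb 2 n - 1) ≤ δ * ε * k := mul_le_mul_of_nonneg_left h5 hδε
  by_cases h7 : δ * ε * (Real.logb 2 n - 1) - 1 ≤ 0
  · refine le_trans (mul_nonpos_of_nonneg_of_nonpos (by positivity) h7) (Nat.cast_nonneg _)
  · push Not at h7
    refine le_trans ?_ h3
    refine mul_le_mul (by linarith) (by linarith) h7.le hm.le

end Pool.Agent.H682R3.LC
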